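import Mathlib

/-!
# MP_81fb9f_gt (Q1): a space `X` whose hyperspace of convergent sequences is a sigma-space but not
an aleph-space

`X` is the sequential fan with uncountably many spines.
-/

set_option autoImplicit false

open Set Filter Topology

namespace Pool.Agent.Results.MP_81fb9f_gt.SequentialFan

/-- A convergent sequence, as a set: the terms and the limit. -/
def IsConvSeq {X : Type} [TopologicalSpace X] (A : Set X) : Prop :=
  ∃ (u : ℕ → X) (x : X), Tendsto u atTop (𝓝 x) ∧ A = range u ∪ {x}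

/-- The nonempty closed subsets of `X` that are unions of finitely many convergent sequences. -/
def Hyp (X : Type) [TopologicalSpace X] : Type :=
  {S : Set X // S.Nonempty ∧ IsClosed S ∧
    ∃ F : Set (Set X), F.Finite ∧ (∀ A ∈ F, IsConvSeq A) ∧ S = ⋃₀ F}

/-- The set `⟨P 1, ..., P r⟩`. -/
def bracket {X : Type} [TopologicalSpace X] {r : ℕ} (P : Fin r → Set X) : Set (Hyp X) :=
  {S | S.1 ⊆ ⋃ i, P i ∧ ∀ i, (S.1 ∩ P i).Nonempty}

/-- The Vietoris topology. -/
instance {X : Type} [TopologicalSpace X] : TopologicalSpace (Hyp X) :=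
  TopologicalSpace.generateFrom
    {B | ∃ (r : ℕ) (U : Fin r → Set X), 1 ≤ r ∧ (∀ i, IsOpen (U i)) ∧ B = bracket U}

/-- Every point has a neighbourhood which meets only finitely many members of the family. -/
def LocFinite {Y : Type} [TopologicalSpace Y] (P : Set (Set Y)) : Prop :=
  ∀ y : Y, ∃ V ∈ 𝓝 y, {A | A ∈ P ∧ (A ∩ V).Nonempty}.Finite

def IsNetwork {Y : Type} [TopologicalSpace Y] (P : Set (Set Y)) : Prop :=
  ∀ (y : Y) (U : Set Y), IsOpen U → y ∈ U → ∃ A ∈ P, y ∈ A ∧ A ⊆ U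

def IsKNetwork {Y : Type} [TopologicalSpace Y] (P : Set (Set Y)) : Prop :=
  ∀ K U : Set Y, IsCompact K → IsOpen U → K ⊆ U →
    ∃ F : Set (Set Y), F ⊆ P ∧ F.Finite ∧ K ⊆ ⋃₀ F ∧ ⋃₀ F ⊆ U

/-- A regular Hausdorff space with a network which is a countable union of locally finite
families. -/
def SigmaSpace (Y : Type) [TopologicalSpace Y] : Prop :=
  T3Space Y ∧ ∃ P : ℕ → Set (Set Y), (∀ n, LocFinite (P n)) ∧ IsNetwork (⋃ n, P n)

/-- A regular Hausdorff space with a `k`-network which is a countable union of locally finite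
families. -/
def AlephSpace (Y : Type) [TopologicalSpace Y] : Prop :=
  T3Space Y ∧ ∃ P : ℕ → Set (Set Y), (∀ n, LocFinite (P n)) ∧ IsKNetwork (⋃ n, P n)

/-! ## General facts on the hyperspace -/

section gen
variable {X : Type} [TopologicalSpace X]

theorem isOpen_sub {U : Set X} (hU : IsOpen U) : IsOpen {T : Hyp X | T.1 ⊆ U} := by
  have : {T : Hyp X | T.1 ⊆ U} = bracket (fun _ : Fin 1 => U) := by
    ext T
    simp only [bracket, mem_ofPred_eq, iUnion_const]
    constructor
    · intro h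
      refine ⟨h, fun _ => ?_⟩
      rw [inter_eq_left.2 h]
      exact T.2.1
    · exact fun h => h.1
  rw [this]
  exact TopologicalSpace.isOpen_generateFrom_of_mem ⟨1, _, le_rfl, fun _ => hU, rfl⟩

theorem isOpen_hit {U : Set X} (hU : IsOpen U) : IsOpen {T : Hyp X | (T.1 ∩ U).Nonempty} := by
  have : {T : Hyp X | (T.1 ∩ U).Nonempty} =
      bracket (fun i : Fin 2 => if i = 0 then U else univ) := by
    ext T
    simp only [bracket, mem_ofPred_eq]
    constructor
    · intro h
      refine ⟨fun x _ => mem_iUnion.2 ⟨1, by simp⟩, fun i => ?_⟩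
      fin_cases i
      · simpa using h
      · simpa using T.2.1
    · intro h
      simpa using h.2 0
  rw [this]
  refine TopologicalSpace.isOpen_generateFrom_of_mem ⟨2, _, by norm_num, fun i => ?_, rfl⟩
  split_ifs
  · exact hU
  · exact isOpen_univ

theorem isClosed_sub {C : Set X} (hC : IsClosed C) : IsClosed {T : Hyp X | T.1 ⊆ C} := by
  rw [← isOpen_compl_iff]
  have : {T : Hyp X | T.1 ⊆ C}ᶜ = {T : Hyp X | (T.1 ∩ Cᶜ).Nonempty} := by
    ext T
    simp only [mem_compl_iff, mem_ofPred_eq, inter_compl_nonempty_iff]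
  rw [this]
  exact isOpen_hit hC.isOpen_compl

theorem isClosed_hit {C : Set X} (hC : IsClosed C) :
    IsClosed {T : Hyp X | (T.1 ∩ C).Nonempty} := by
  rw [← isOpen_compl_iff]
  have : {T : Hyp X | (T.1 ∩ C).Nonempty}ᶜ = {T : Hyp X | T.1 ⊆ Cᶜ} := by
    ext T
    simp only [mem_compl_iff, mem_ofPred_eq, not_nonempty_iff_eq_empty,
      ← disjoint_iff_inter_eq_empty, subset_compl_iff_disjoint_right]
  rw [this]
  exact isOpen_sub hC.isOpen_compl

end gen

/-! ## The fan -/

/-- The sequential fan with spines indexed by `I`. -/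
def Fan (I : Type) : Type := Option (I × ℕ)

variable {I : Type}

def cen : Fan I := (none : Option (I × ℕ))
def pnt (i : I) (n : ℕ) : Fan I := (some (i, n) : Option (I × ℕ))

theorem pnt_inj {i j : I} {m n : ℕ} (h : pnt i m = pnt j n) : i = j ∧ m = n := by
  unfold pnt at h
  have := Option.some.inj h
  exact Prod.mk.inj this

theorem pnt_ne_cen {i : I} {n : ℕ} : pnt i n ≠ (cen : Fan I) := by
  unfold pnt cen
  exact Option.some_ne_none _

theorem cases_fan (x : Fan I) : x = cen ∨ ∃ i n, x = pnt i n := by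
  rcases x with _ | ⟨i, n⟩
  · exact Or.inl rfl
  · exact Or.inr ⟨i, n, rfl⟩

instance : TopologicalSpace (Fan I) where
  IsOpen U := cen ∈ U → ∀ i : I, ∀ᶠ n : ℕ in atTop, pnt i n ∈ U
  isOpen_univ := fun _ _ => Eventually.of_forall fun _ => mem_univ _
  isOpen_inter := fun U V hU hV h i => (hU h.1 i).and (hV h.2 i)
  isOpen_sUnion := fun s hs h i => by
    obtain ⟨U, hU, hc⟩ := h
    filter_upwards [hs U hU hc i] with n hn
    exact ⟨U, hU, hn⟩

theorem fan_open {U : Set (Fan I)} : IsOpen U ↔ (cen ∈ U → ∀ i : I, ∀ᶠ n : ℕ in atTop, pnt i n ∈ U) :=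
  Iff.rfl

theorem open_of_cen {U : Set (Fan I)} (h : cen ∉ U) : IsOpen U :=
  fan_open.2 fun h' => absurd h' h

/-- basic neighbourhoods of the centre -/
def V (g : I → ℕ) : Set (Fan I) := {x | ∀ i n, x = pnt i n → g i ≤ n}

theorem cen_V (g : I → ℕ) : cen ∈ V g := fun _ _ h => absurd h.symm pnt_ne_cen

theorem pnt_V {g : I → ℕ} {i : I} {n : ℕ} : pnt i n ∈ V g ↔ g i ≤ n := by
  constructor
  · exact fun h => h i n rfl
  · intro h j m e
    obtain ⟨rfl, rfl⟩ := pnt_inj e
    exact h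

theorem open_of_V {U : Set (Fan I)} {g : I → ℕ} (h : V g ⊆ U) : IsOpen U := by
  refine fan_open.2 fun _ i => ?_
  filter_upwards [eventually_ge_atTop (g i)] with n hn
  exact h (pnt_V.2 hn)

theorem open_V (g : I → ℕ) : IsOpen (V g) := open_of_V subset_rfl

theorem closed_of_cen {C : Set (Fan I)} (h : cen ∈ C) : IsClosed C :=
  isOpen_compl_iff.1 (open_of_cen fun h' => h' h)

theorem exists_V {U : Set (Fan I)} (hU : IsOpen U) (h : cen ∈ U) : ∃ g : I → ℕ, V g ⊆ U := by
  have h1 := fan_open.1 hU h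
  have h2 : ∀ i, ∃ N, ∀ n ≥ N, pnt i n ∈ U := fun i => eventually_atTop.1 (h1 i)
  choose g hg using h2
  refine ⟨g, fun x hx => ?_⟩
  rcases cases_fan x with rfl | ⟨i, n, rfl⟩
  · exact h
  · exact hg i n (pnt_V.1 hx)

instance : T2Space (Fan I) := by
  have key : ∀ (i : I) (n : ℕ) (y : Fan I), pnt i n ≠ y →
      ∃ u v : Set (Fan I), IsOpen u ∧ IsOpen v ∧ pnt i n ∈ u ∧ y ∈ v ∧ Disjoint u v := by
    intro i n y hne
    refine ⟨{pnt i n}, {pnt i n}ᶜ, open_of_cen (fun h => pnt_ne_cen (mem_singleton_iff.1 h).symm),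
      ?_, rfl, fun h => hne (mem_singleton_iff.1 h).symm, disjoint_compl_right⟩
    refine fan_open.2 fun _ j => ?_
    filter_upwards [eventually_gt_atTop n] with m hm h
    have := (pnt_inj (mem_singleton_iff.1 h)).2
    omega
  refine ⟨fun x y hxy => ?_⟩
  rcases cases_fan x with rfl | ⟨i, n, rfl⟩
  · rcases cases_fan y with rfl | ⟨j, m, rfl⟩
    · exact absurd rfl hxy
    · obtain ⟨u, v, h1, h2, h3, h4, h5⟩ := key j m cen hxy.symm
      exact ⟨v, u, h2, h1, h4, h3, h5.symm⟩
  · exact key i n y hxy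

theorem tendsto_pnt (i : I) : Tendsto (fun n => pnt i n) atTop (𝓝 (cen : Fan I)) := by
  intro U hU
  obtain ⟨W, hW, hWo, hc⟩ := mem_nhds_iff.1 hU
  filter_upwards [fan_open.1 hWo hc i] with n hn
  exact hW hn

/-- a sequence with limit different from the centre has a finite range -/
theorem range_finite {u : ℕ → Fan I} {x : Fan I} (h : Tendsto u atTop (𝓝 x)) (hx : x ≠ cen) :
    (range u).Finite := by
  have h1 : ∀ᶠ k in atTop, u k ∈ ({x} : Set (Fan I)) :=
    h ((open_of_cen (fun h => hx (mem_singleton_iff.1 h).symm)).mem_nhds rfl)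
  obtain ⟨K, hK⟩ := eventually_atTop.1 h1
  refine ((finite_lt_nat K).image u |>.insert x).subset ?_
  rintro _ ⟨k, rfl⟩
  by_cases hk : k < K
  · exact Or.inr ⟨k, hk, rfl⟩
  · exact Or.inl (hK k (by omega))

/-- a convergent sequence meets only finitely many spines -/
theorem spines_finite {u : ℕ → Fan I} {x : Fan I} (h : Tendsto u atTop (𝓝 x)) :
    {i : I | ∃ n, pnt i n ∈ range u}.Finite := by
  by_cases hx : x = cen
  · subst hx
    set B := {i : I | ∃ n, pnt i n ∈ range u} with hB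
    have h0 : ∀ i : I, ∃ (n k : ℕ), i ∈ B → u k = pnt i n := by
      intro i
      by_cases hi : i ∈ B
      · obtain ⟨n, k, hk⟩ := hi
        exact ⟨n, k, fun _ => hk⟩
      · exact ⟨0, 0, fun h => absurd h hi⟩
    choose n k hnk using h0
    have hU : IsOpen (V (fun i => n i + 1) : Set (Fan I)) := open_V _
    have h1 := h (hU.mem_nhds (cen_V _))
    obtain ⟨K, hK⟩ := eventually_atTop.1 h1
    refine Finite.of_finite_image ((finite_lt_nat K).subset ?_) (f := k) ?_
    · rintro _ ⟨i, hi, rfl⟩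
      by_contra hcon
      have h2 := hK (k i) (by simpa using hcon)
      have h2 : u (k i) ∈ V (fun i => n i + 1) := h2
      rw [hnk i hi, pnt_V] at h2
      omega
    · intro i hi j hj hij
      have e1 := hnk i hi
      rw [hij, hnk j hj] at e1
      exact (pnt_inj e1).1.symm
  · refine ((range_finite h hx).image (fun y : Fan I => (Option.map Prod.fst y : Option I))
      |>.preimage (f := fun i : I => (some i : Option I)) ?_).subset ?_
    · exact (Option.some_injective I).injOn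
    · rintro i ⟨n, hn⟩
      exact ⟨pnt i n, hn, rfl⟩

theorem supp_finite (T : Hyp (Fan I)) : {i : I | ∃ n, pnt i n ∈ T.1}.Finite := by
  obtain ⟨F, hF, hc, hT⟩ := T.2.2.2
  have : {i : I | ∃ n, pnt i n ∈ T.1} ⊆ ⋃ A ∈ F, {i : I | ∃ n, pnt i n ∈ A} := by
    rintro i ⟨n, hn⟩
    rw [hT] at hn
    obtain ⟨A, hA, hn⟩ := hn
    exact mem_biUnion hA ⟨n, hn⟩
  refine (hF.biUnion fun A hA => ?_).subset this
  obtain ⟨u, x, hu, rfl⟩ := hc A hA
  have h1 := spines_finite hu
  have h2 : {i : I | ∃ n, pnt i n = x}.Finite := by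
    refine Set.Subsingleton.finite ?_
    rintro i ⟨n, hn⟩ j ⟨m, hm⟩
    exact (pnt_inj (hn.trans hm.symm)).1
  refine (h1.union h2).subset ?_
  rintro i ⟨n, hn | hn⟩
  · exact Or.inl ⟨n, hn⟩
  · exact Or.inr ⟨n, hn⟩

theorem finite_of_cen (T : Hyp (Fan I)) (h : cen ∉ T.1) : T.1.Finite := by
  obtain ⟨F, hF, hc, hT⟩ := T.2.2.2
  have h1 : ∀ A ∈ F, A.Finite := by
    intro A hA
    obtain ⟨u, x, hu, rfl⟩ := hc A hA
    refine (range_finite hu ?_).union (finite_singleton x)
    rintro rfl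
    exact h (by rw [hT]; exact ⟨_, hA, Or.inr rfl⟩)
  rw [hT]
  exact hF.sUnion h1

/-! ## Neighbourhoods in the hyperspace of the fan -/

/-- basic neighbourhoods of an element containing the centre -/
def N (T : Hyp (Fan I)) (g : I → ℕ) : Set (Hyp (Fan I)) :=
  {S | S.1 ⊆ V g ∪ T.1} ∩ {S | (S.1 ∩ V g).Nonempty} ∩ ⋂ x ∈ T.1 \ V g, {S | (S.1 ∩ {x}).Nonempty}

theorem diff_finite (T : Hyp (Fan I)) (g : I → ℕ) : (T.1 \ V g).Finite := by
  have h : T.1 \ V g ⊆ ⋃ i ∈ {i : I | ∃ n, pnt i n ∈ T.1}, (fun n => pnt i n) '' {n | n < g i} := by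
    rintro x ⟨hx, hxV⟩
    rcases cases_fan x with rfl | ⟨i, n, rfl⟩
    · exact absurd (cen_V g) hxV
    · rw [pnt_V] at hxV
      exact mem_biUnion (show i ∈ {i : I | ∃ n, pnt i n ∈ T.1} from ⟨n, hx⟩) ⟨n, by simpa using hxV, rfl⟩
  exact ((supp_finite T).biUnion fun i _ => (finite_lt_nat (g i)).image _).subset h

theorem sing_clopen {x : Fan I} (hx : x ≠ cen) : IsOpen ({x} : Set (Fan I)) :=
  open_of_cen fun h => hx (mem_singleton_iff.1 h).symm

theorem isOpen_N (T : Hyp (Fan I)) (g : I → ℕ) : IsOpen (N T g) := by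
  refine ((isOpen_sub (open_of_V subset_union_left)).inter (isOpen_hit (open_V g))).inter ?_
  refine (diff_finite T g).isOpen_biInter fun x hx => isOpen_hit (sing_clopen ?_)
  rintro rfl
  exact hx.2 (cen_V g)

theorem isClosed_N (T : Hyp (Fan I)) (g : I → ℕ) : IsClosed (N T g) := by
  refine ((isClosed_sub (closed_of_cen (Or.inl (cen_V g)))).inter
    (isClosed_hit (closed_of_cen (cen_V g)))).inter ?_
  exact isClosed_biInter fun x _ => isClosed_hit isClosed_singleton

theorem mem_N {T : Hyp (Fan I)} (h : cen ∈ T.1) (g : I → ℕ) : T ∈ N T g := by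
  refine ⟨⟨subset_union_right, ⟨cen, h, cen_V g⟩⟩, ?_⟩
  simp only [mem_iInter]
  exact fun x hx => ⟨x, hx.1, rfl⟩

theorem V_anti {g g' : I → ℕ} (h : ∀ i, g i ≤ g' i) : V g' ⊆ V g := by
  intro x hx i n e
  exact (h i).trans (hx i n e)

theorem N_anti {T : Hyp (Fan I)} {g g' : I → ℕ} (h : ∀ i, g i ≤ g' i) : N T g' ⊆ N T g := by
  rintro S ⟨⟨h1, h2⟩, h3⟩
  simp only [mem_iInter] at h3
  refine ⟨⟨fun x hx => ?_, ?_⟩, ?_⟩
  · rcases h1 hx with h4 | h4
    · exact Or.inl (V_anti h h4)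
    · exact Or.inr h4
  · obtain ⟨x, hx, hx'⟩ := h2
    exact ⟨x, hx, V_anti h hx'⟩
  · simp only [mem_iInter]
    exact fun x hx => h3 x ⟨hx.1, fun hx' => hx.2 (V_anti h hx')⟩

theorem exists_N {T : Hyp (Fan I)} (hT : cen ∈ T.1) {W : Set (Hyp (Fan I))} (hW : IsOpen W)
    (hTW : T ∈ W) : ∃ g, N T g ⊆ W := by
  have hW' : TopologicalSpace.GenerateOpen
    {B | ∃ (r : ℕ) (U : Fin r → Set (Fan I)), 1 ≤ r ∧ (∀ i, IsOpen (U i)) ∧ B = bracket U} W := hW
  clear hW
  induction hW' with
  | basic B hB =>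
    obtain ⟨r, U, hr, hU, rfl⟩ := hB
    obtain ⟨h1, h2⟩ := hTW
    choose x hx hxU using h2
    have h3 : ∀ k, ∃ g : I → ℕ, (∀ i n, x k = pnt i n → n < g i) ∧ (cen ∈ U k → V g ⊆ U k) := by
      intro k
      by_cases hc : cen ∈ U k
      · obtain ⟨g, hg⟩ := exists_V (hU k) hc
        rcases cases_fan (x k) with e | ⟨i, n, e⟩
        · exact ⟨g, fun i n h => absurd (h.symm.trans e) pnt_ne_cen, fun _ => hg⟩
        · refine ⟨fun j => max (g j) (n + 1), fun j m h => ?_, fun _ =>
            (V_anti fun j => le_max_left _ _).trans hg⟩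
          have := (pnt_inj (e.symm.trans h)).2
          subst this
          exact lt_of_lt_of_le (Nat.lt_succ_self n) (le_max_right _ _)
      · rcases cases_fan (x k) with e | ⟨i, n, e⟩
        · exact ⟨fun _ => 0, fun i n h => absurd (h.symm.trans e) pnt_ne_cen,
            fun h => absurd h hc⟩
        · refine ⟨fun j => n + 1, fun j m h => ?_, fun h => absurd h hc⟩
          have := (pnt_inj (e.symm.trans h)).2
          subst this
          exact Nat.lt_succ_self n
    choose g hg1 hg2 using h3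
    refine ⟨fun i => Finset.univ.sup fun k => g k i, ?_⟩
    have hle : ∀ k i, g k i ≤ Finset.univ.sup fun k => g k i := fun k i =>
      Finset.le_sup (f := fun k => g k i) (Finset.mem_univ k)
    rintro S ⟨⟨s1, s2⟩, s3⟩
    simp only [mem_iInter] at s3
    refine ⟨fun y hy => ?_, fun k => ?_⟩
    · rcases s1 hy with h4 | h4
      · obtain ⟨k, hk⟩ := mem_iUnion.1 (h1 hT)
        exact mem_iUnion.2 ⟨k, hg2 k hk (V_anti (hle k) h4)⟩
      · exact h1 h4
    · by_cases hk : cen ∈ U k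
      · obtain ⟨y, hy, hy'⟩ := s2
        exact ⟨y, hy, hg2 k hk (V_anti (hle k) hy')⟩
      · rcases cases_fan (x k) with e | ⟨i, n, e⟩
        · exact absurd (e ▸ hxU k) hk
        · have h5 : x k ∉ V (fun i => Finset.univ.sup fun k => g k i) := by
            rw [e, pnt_V, not_le]
            exact (hg1 k i n e).trans_le (hle k i)
          obtain ⟨y, hy, hy'⟩ := s3 (x k) ⟨hx k, h5⟩
          rw [mem_singleton_iff] at hy'
          subst hy'
          exact ⟨x k, hy, hxU k⟩
  | univ => exact ⟨fun _ => 0, subset_univ _⟩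
  | inter A B _ _ hA hB =>
    obtain ⟨g, hg⟩ := hA hTW.1
    obtain ⟨g', hg'⟩ := hB hTW.2
    exact ⟨fun i => max (g i) (g' i), subset_inter ((N_anti fun i => le_max_left _ _).trans hg)
      ((N_anti fun i => le_max_right _ _).trans hg')⟩
  | sUnion s _ hs =>
    obtain ⟨A, hA, hTA⟩ := hTW
    obtain ⟨g, hg⟩ := hs A hA hTA
    exact ⟨g, hg.trans (subset_sUnion_of_mem hA)⟩

theorem clopen_single {T : Hyp (Fan I)} (h : cen ∉ T.1) : IsOpen {T} ∧ IsClosed {T} := by
  have hfin := finite_of_cen T h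
  have e : ({T} : Set (Hyp (Fan I))) =
      {S | S.1 ⊆ T.1} ∩ ⋂ x ∈ T.1, {S | (S.1 ∩ {x}).Nonempty} := by
    ext S
    simp only [mem_singleton_iff, mem_inter_iff, mem_ofPred_eq, mem_iInter]
    constructor
    · rintro rfl
      exact ⟨subset_rfl, fun x hx => ⟨x, hx, rfl⟩⟩
    · rintro ⟨h1, h2⟩
      refine Subtype.ext (subset_antisymm h1 fun x hx => ?_)
      obtain ⟨y, hy, hy'⟩ := h2 x hx
      rw [mem_singleton_iff] at hy'
      exact hy' ▸ hy
  rw [e]
  refine ⟨(isOpen_sub (open_of_cen h)).inter (hfin.isOpen_biInter fun x hx => isOpen_hit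
    (sing_clopen ?_)), (isClosed_sub T.2.2.1).inter (isClosed_biInter fun x _ =>
      isClosed_hit isClosed_singleton)⟩
  rintro rfl
  exact h hx

instance : T3Space (Hyp (Fan I)) := by
  have hreg : RegularSpace (Hyp (Fan I)) := by
    refine RegularSpace.of_exists_mem_nhds_isClosed_subset fun T s hs => ?_
    obtain ⟨W, hW, hWo, hTW⟩ := mem_nhds_iff.1 hs
    by_cases h : cen ∈ T.1
    · obtain ⟨g, hg⟩ := exists_N h hWo hTW
      exact ⟨N T g, (isOpen_N T g).mem_nhds (mem_N h g), isClosed_N T g, hg.trans hW⟩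
    · exact ⟨{T}, (clopen_single h).1.mem_nhds rfl, (clopen_single h).2,
        singleton_subset_iff.2 (hW hTW)⟩
  have h0 : T0Space (Hyp (Fan I)) := by
    refine ⟨fun S T hST => ?_⟩
    have key : ∀ S T : Hyp (Fan I), Inseparable S T → S.1 ⊆ T.1 := by
      intro S T h x hx
      by_contra hxT
      have ho : IsOpen {R : Hyp (Fan I) | (R.1 ∩ T.1ᶜ).Nonempty} := isOpen_hit T.2.2.1.isOpen_compl
      have h1 := (inseparable_iff_forall_isOpen.1 h _ ho).1 ⟨x, hx, hxT⟩
      obtain ⟨y, hy, hy'⟩ := h1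
      exact hy' hy
    exact Subtype.ext (subset_antisymm (key S T hST) (key T S hST.symm))
  exact { }

/-! ## The network -/

/-- the elements containing the centre, with support `F`, all whose traces have an element at most
`j`, and with the traces below `L` given by `P` -/
def pc (F : Finset I) (j L : ℕ) (P : Finset (I × ℕ)) : Set (Hyp (Fan I)) :=
  {T | cen ∈ T.1 ∧ (∀ i n, pnt i n ∈ T.1 → i ∈ F) ∧ (∀ i ∈ F, ∃ m ≤ j, pnt i m ∈ T.1) ∧
    ∀ i m, m < L → (pnt i m ∈ T.1 ↔ (i, m) ∈ P)}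

def netA (I : Type) (j L : ℕ) : Set (Set (Hyp (Fan I))) :=
  {A | ∃ (F : Finset I) (P : Finset (I × ℕ)), P ⊆ F ×ˢ Finset.range L ∧ A = pc F j L P}

def netB (I : Type) (j : ℕ) : Set (Set (Hyp (Fan I))) :=
  {A | ∃ T : Hyp (Fan I), cen ∉ T.1 ∧ (∀ i m, pnt i m ∈ T.1 → m ≤ j) ∧ A = {T}}

theorem locA (j L : ℕ) : LocFinite (netA I j L) := by
  classical
  intro T
  by_cases h : cen ∈ T.1
  · refine ⟨N T (fun _ => j + 1), (isOpen_N T _).mem_nhds (mem_N h _), ?_⟩
    set G : Finset I := (supp_finite T).toFinset with hG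
    refine (Finite.image (fun p : Finset I × Finset (I × ℕ) => pc p.1 j L p.2)
      (Finset.finite_toSet (G.powerset ×ˢ (G ×ˢ Finset.range L).powerset))).subset ?_
    rintro A ⟨⟨F, P, hP, rfl⟩, S, hS1, hS2⟩
    have hFG : F ⊆ G := by
      intro i hi
      obtain ⟨m, hm, hmS⟩ := hS1.2.2.1 i hi
      rw [hG, Finite.mem_toFinset]
      rcases hS2.1.1 hmS with h4 | h4
      · rw [pnt_V] at h4
        omega
      · exact ⟨m, h4⟩
    refine ⟨(F, P), ?_, rfl⟩
    simp only [Finset.coe_product, mem_prod, Finset.mem_coe, Finset.mem_powerset]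
    exact ⟨hFG, hP.trans (Finset.product_subset_product_left hFG)⟩
  · refine ⟨{T}, (clopen_single h).1.mem_nhds rfl, ?_⟩
    convert finite_empty
    rw [eq_empty_iff_forall_notMem]
    rintro A ⟨⟨F, P, hP, rfl⟩, S, hS1, hS2⟩
    rw [mem_singleton_iff] at hS2
    subst hS2
    exact h hS1.1

theorem locB (j : ℕ) : LocFinite (netB I j) := by
  intro T
  by_cases h : cen ∈ T.1
  · refine ⟨N T (fun _ => j + 1), (isOpen_N T _).mem_nhds (mem_N h _), ?_⟩
    convert finite_empty
    rw [eq_empty_iff_forall_notMem]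
    rintro A ⟨⟨S, hS, hSj, rfl⟩, R, hR1, hR2⟩
    rw [mem_singleton_iff] at hR1
    subst hR1
    obtain ⟨x, hx, hxV⟩ := hR2.1.2
    rcases cases_fan x with rfl | ⟨i, n, rfl⟩
    · exact hS hx
    · have := hSj i n hx
      rw [pnt_V] at hxV
      omega
  · refine ⟨{T}, (clopen_single h).1.mem_nhds rfl, ?_⟩
    refine (finite_singleton ({T} : Set (Hyp (Fan I)))).subset ?_
    rintro A ⟨⟨S, hS, hSj, rfl⟩, R, hR1, hR2⟩
    rw [mem_singleton_iff] at hR1 hR2
    subst hR1
    subst hR2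
    rfl

theorem sigma : SigmaSpace (Hyp (Fan I)) := by
  classical
  refine ⟨inferInstance, fun n => netA I (Nat.unpair n).1 (Nat.unpair n).2 ∪
    netB I (Nat.unpair n).1, fun n => ?_, ?_⟩
  · intro T
    obtain ⟨V1, h1, h2⟩ := locA (I := I) (Nat.unpair n).1 (Nat.unpair n).2 T
    obtain ⟨V2, h3, h4⟩ := locB (I := I) (Nat.unpair n).1 T
    refine ⟨V1 ∩ V2, inter_mem h1 h3, (h2.union h4).subset ?_⟩
    rintro A ⟨hA | hA, S, hS1, hS2⟩
    · exact Or.inl ⟨hA, S, hS1, hS2.1⟩
    · exact Or.inr ⟨hA, S, hS1, hS2.2⟩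
  · intro T W hW hTW
    by_cases h : cen ∈ T.1
    · obtain ⟨g, hg⟩ := exists_N h hW hTW
      set F : Finset I := (supp_finite T).toFinset with hF
      have hFm : ∀ i, i ∈ F ↔ ∃ n, pnt i n ∈ T.1 := fun i => by
        rw [hF, Finite.mem_toFinset]; rfl
      have h1 : ∀ i, ∃ m, i ∈ F → pnt i m ∈ T.1 := fun i => by
        by_cases hi : i ∈ F
        · obtain ⟨m, hm⟩ := (hFm i).1 hi
          exact ⟨m, fun _ => hm⟩
        · exact ⟨0, fun h => absurd h hi⟩
      choose m hm using h1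
      set j := F.sup m with hj
      set L := F.sup g with hL
      set P : Finset (I × ℕ) := (F ×ˢ Finset.range L).filter (fun p => pnt p.1 p.2 ∈ T.1) with hP
      have hPm : ∀ i n, n < L → ((i, n) ∈ P ↔ pnt i n ∈ T.1) := fun i n hn => by
        rw [hP, Finset.mem_filter, Finset.mem_product, Finset.mem_range]
        constructor
        · exact fun h => h.2
        · exact fun h => ⟨⟨(hFm i).2 ⟨n, h⟩, hn⟩, h⟩
      refine ⟨pc F j L P, mem_iUnion.2 ⟨Nat.pair j L, Or.inl ?_⟩, ?_, subset_trans ?_ hg⟩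
      · rw [Nat.unpair_pair]
        exact ⟨F, P, Finset.filter_subset _ _, rfl⟩
      · exact ⟨h, fun i n hn => (hFm i).2 ⟨n, hn⟩, fun i hi => ⟨m i, Finset.le_sup hi, hm i hi⟩,
          fun i n hn => (hPm i n hn).symm⟩
      · rintro S ⟨s1, s2, s3, s4⟩
        refine ⟨⟨fun x hx => ?_, ⟨cen, s1, cen_V g⟩⟩, ?_⟩
        · rcases cases_fan x with rfl | ⟨i, n, rfl⟩
          · exact Or.inl (cen_V g)
          · by_cases hn : g i ≤ n
            · exact Or.inl (pnt_V.2 hn)
            · right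
              have hi := s2 i n hx
              have hnL : n < L := lt_of_lt_of_le (not_le.1 hn) (Finset.le_sup hi)
              exact (hPm i n hnL).1 ((s4 i n hnL).1 hx)
        · simp only [mem_iInter]
          rintro x ⟨hx, hxV⟩
          rcases cases_fan x with rfl | ⟨i, n, rfl⟩
          · exact absurd (cen_V g) hxV
          · rw [pnt_V, not_le] at hxV
            have hi : i ∈ F := (hFm i).2 ⟨n, hx⟩
            have hnL : n < L := lt_of_lt_of_le hxV (Finset.le_sup hi)
            exact ⟨pnt i n, (s4 i n hnL).2 ((hPm i n hnL).2 hx), rfl⟩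
    · have hfin := finite_of_cen T h
      have h2 : {n : ℕ | ∃ i, pnt i n ∈ T.1}.Finite := by
        refine ((hfin.image (fun x : Fan I => (Option.map Prod.snd x : Option ℕ))).preimage
          (f := fun n : ℕ => (some n : Option ℕ)) (Option.some_injective ℕ).injOn).subset ?_
        rintro n ⟨i, hi⟩
        exact ⟨pnt i n, hi, rfl⟩
      obtain ⟨j, hj⟩ := h2.bddAbove
      refine ⟨{T}, mem_iUnion.2 ⟨Nat.pair j 0, Or.inr ?_⟩, rfl, singleton_subset_iff.2 hTW⟩
      rw [Nat.unpair_pair]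
      exact ⟨T, h, fun i n hn => hj ⟨i, hn⟩, rfl⟩

/-! ## No sigma-locally finite `k`-network -/

theorem exists_inj (A : ℕ → Set I) (hA : ∀ k, (A k).Infinite) :
    ∃ f : ℕ → I, Function.Injective f ∧ ∀ k, f k ∈ A k := by
  classical
  have h : ∀ (k : ℕ) (F : Finset I), ∃ x, x ∈ A k ∧ x ∉ F := fun k F =>
    (hA k).exists_notMem_finset F
  choose c hc1 hc2 using h
  let F : ℕ → Finset I := fun n => Nat.rec ∅ (fun k G => insert (c k G) G) n
  have hF : ∀ n, F (n + 1) = insert (c n (F n)) (F n) := fun n => rfl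
  have hmono : Monotone F := monotone_nat_of_le_succ fun n => by
    rw [hF]; exact Finset.subset_insert _ _
  refine ⟨fun n => c n (F n), ?_, fun k => hc1 k _⟩
  have hlt : ∀ m n, m < n → c m (F m) ≠ c n (F n) := by
    intro m n hmn he
    have h1 : c m (F m) ∈ F n := hmono (Nat.succ_le_of_lt hmn) (by
      rw [hF]; exact Finset.mem_insert_self _ _)
    rw [he] at h1
    exact hc2 n _ h1
  intro m n hmn
  rcases lt_trichotomy m n with h | h | h
  · exact absurd hmn (hlt m n h)
  · exact h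
  · exact absurd hmn.symm (hlt n m h)

/-- a singleton -/
def sg (x : Fan I) : Hyp (Fan I) :=
  ⟨{x}, singleton_nonempty x, isClosed_singleton, {{x}}, finite_singleton _,
    fun A hA => ⟨fun _ => x, x, tendsto_const_nhds, by
      rw [mem_singleton_iff] at hA; subst hA; simp⟩, by simp⟩

theorem sg_cont : Continuous (sg (I := I)) := by
  refine continuous_generateFrom_iff.2 ?_
  rintro _ ⟨r, U, hr, hU, rfl⟩
  have e : sg (I := I) ⁻¹' (bracket U) = (⋃ i, U i) ∩ ⋂ i, U i := by
    ext x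
    constructor
    · rintro ⟨h1, h2⟩
      refine ⟨h1 rfl, mem_iInter.2 fun i => ?_⟩
      obtain ⟨y, hy, hy'⟩ := h2 i
      have hy : y = x := hy
      exact hy ▸ hy'
    · rintro ⟨h1, h2⟩
      exact ⟨singleton_subset_iff.2 h1, fun i => ⟨x, rfl, mem_iInter.1 h2 i⟩⟩
  rw [e]
  exact (isOpen_iUnion hU).inter (isOpen_iInter_of_finite hU)

theorem not_aleph (hI : ¬ (univ : Set I).Countable) : ¬ AlephSpace (Hyp (Fan I)) := by
  classical
  rintro ⟨-, P, hloc, hnet⟩
  have htend : ∀ i : I, Tendsto (fun m => sg (pnt i m)) atTop (𝓝 (sg (cen : Fan I))) := fun i =>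
    (sg_cont.tendsto cen).comp (tendsto_pnt i)
  -- the members which contain infinitely many points of a spine
  let A : Set (Hyp (Fan I)) → Set I := fun Q => {i | {m : ℕ | sg (pnt i m) ∈ Q}.Infinite}
  set Q : Set (Set (Hyp (Fan I))) := {B | B ∈ (⋃ n, P n) ∧ (A B).Nonempty} with hQ
  have hQc : Q.Countable := by
    have : Q ⊆ ⋃ n, {B | B ∈ P n ∧ (A B).Nonempty} := by
      rintro B ⟨hB, hne⟩
      obtain ⟨n, hn⟩ := mem_iUnion.1 hB
      exact mem_iUnion.2 ⟨n, hn, hne⟩
    refine (countable_iUnion fun n => ?_).mono this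
    obtain ⟨W, hW, hfin⟩ := hloc n (sg cen)
    refine (hfin.subset ?_).countable
    rintro B ⟨hB, i, hi⟩
    refine ⟨hB, ?_⟩
    have h1 : ∃ᶠ m in atTop, sg (pnt i m) ∈ B := Nat.frequently_atTop_iff_infinite.2 hi
    obtain ⟨m, hm1, hm2⟩ := (h1.and_eventually (htend i hW)).exists
    exact ⟨_, hm1, hm2⟩
  -- a spine outside the finite sets `A B`
  obtain ⟨i₀, hi₀⟩ : ∃ i₀ : I, ∀ B ∈ Q, (A B).Finite → i₀ ∉ A B := by
    by_contra hcon
    push Not at hcon
    refine hI ((hQc.biUnion (t := fun B _ => if (A B).Finite then A B else ∅) fun B _ => ?_).mono ?_)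
    · split_ifs with hf
      · exact hf.countable
      · exact countable_empty
    · intro i _
      obtain ⟨B, hB, hf, hi⟩ := hcon i
      refine mem_biUnion hB ?_
      rw [if_pos hf]
      exact hi
  -- enumerate `Q`
  obtain ⟨e, he⟩ : ∃ e : ℕ → Set (Hyp (Fan I)), Q ⊆ range e := by
    rcases Q.eq_empty_or_nonempty with h | h
    · exact ⟨fun _ => ∅, by rw [h]; exact empty_subset _⟩
    · obtain ⟨e, he⟩ := hQc.exists_eq_range h
      exact ⟨e, he.le⟩
  have hinf : (univ : Set I).Infinite := fun h => hI h.countable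
  obtain ⟨f, hf, hfA⟩ := exists_inj (fun k => if (A (e k)).Infinite then A (e k) else univ)
    (fun k => by
      split_ifs with h
      · exact h
      · exact hinf)
  have h1 : ∀ k, ∃ m, (A (e k)).Infinite → sg (pnt (f k) m) ∈ e k := by
    intro k
    by_cases h : (A (e k)).Infinite
    · have h2 := hfA k
      rw [if_pos h] at h2
      obtain ⟨m, hm⟩ := Set.Infinite.nonempty h2
      exact ⟨m, fun _ => hm⟩
    · exact ⟨0, fun h' => absurd h' h⟩
  choose m hm using h1
  -- the open set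
  set U : Set (Fan I) := {x | ∀ k, x ≠ pnt (f k) (m k)} with hU
  have hcU : cen ∈ U := fun k h => pnt_ne_cen h.symm
  have hUo : IsOpen U := by
    refine fan_open.2 fun _ i => ?_
    by_cases hi : ∃ k, f k = i
    · obtain ⟨k, hk⟩ := hi
      filter_upwards [eventually_gt_atTop (m k)] with n hn k' h'
      obtain ⟨h2, h3⟩ := pnt_inj h'
      have : k' = k := hf (h2.symm.trans hk.symm)
      subst this
      omega
    · exact Eventually.of_forall fun n k' h' => hi ⟨k', (pnt_inj h').1.symm⟩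
  obtain ⟨M, hM⟩ := eventually_atTop.1 (fan_open.1 hUo hcU i₀)
  have hKc : IsCompact (insert (sg (cen : Fan I)) (range fun k : ℕ => sg (pnt i₀ (k + M)))) :=
    Tendsto.isCompact_insert_range ((htend i₀).comp (tendsto_add_atTop_nat M))
  obtain ⟨F, hFP, hFf, hF1, hF2⟩ := hnet _ {T : Hyp (Fan I) | T.1 ⊆ U} hKc (isOpen_sub hUo) (by
    rintro T (rfl | ⟨k, rfl⟩)
    · exact singleton_subset_iff.2 hcU
    · exact singleton_subset_iff.2 (hM _ (by omega)))
  -- a member containing infinitely many points of the spine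
  obtain ⟨B, hBF, hB⟩ : ∃ B ∈ F, {k : ℕ | sg (pnt i₀ (k + M)) ∈ B}.Infinite := by
    by_contra hcon
    push Not at hcon
    have h2 : (⋃ B ∈ F, {k : ℕ | sg (pnt i₀ (k + M)) ∈ B}).Finite :=
      hFf.biUnion fun B hB => hcon B hB
    refine infinite_univ (h2.subset fun k _ => ?_)
    obtain ⟨B, hB, hk⟩ := hF1 (Or.inr ⟨k, rfl⟩)
    exact mem_biUnion hB hk
  have hiA : i₀ ∈ A B := by
    refine Set.Infinite.mono ?_ (hB.image (f := fun k => k + M) (fun x _ y _ h => by
      simpa using h))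
    rintro _ ⟨k, hk, rfl⟩
    exact hk
  have hBQ : B ∈ Q := ⟨hFP hBF, i₀, hiA⟩
  have hBinf : (A B).Infinite := fun h => hi₀ B hBQ h hiA
  obtain ⟨k, rfl⟩ := he hBQ
  have h3 := hF2 ⟨_, hBF, hm k hBinf⟩
  exact h3 (mem_singleton (pnt (f k) (m k))) k rfl

/-- There is a Hausdorff space `X` (the sequential fan with continuum many spines) whose hyperspace
of finite unions of convergent sequences is a sigma-space, but not an aleph-space. -/
theorem result : ∃ (X : Type) (_ : TopologicalSpace X), T2Space X ∧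
    SigmaSpace (Hyp X) ∧ ¬ AlephSpace (Hyp X) :=
  ⟨Fan (Set ℕ), inferInstance, inferInstance, sigma, not_aleph fun h => by
    have h1 : Countable (Set ℕ) := countable_univ_iff.1 h
    obtain ⟨f, hf⟩ := exists_surjective_nat (Set ℕ)
    exact Function.cantor_surjective f hf⟩

end Pool.Agent.Results.MP_81fb9f_gt.SequentialFan
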